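import Mathlib
import Pool.Agent.H66.GSC.Img
import Pool.Agent.H66.GSC.Cov

/-!
# Project GSC (helper51), MP_20ddb5_an: section 5 of note 1871, the recurrence chain
-/

set_option autoImplicit false
open Set Filter Topology MeasureTheory

namespace Pool.Agent.H66.GSC

open Pool.Agent.H24.GN (ld Rg DB)

variable {Γ : Subgroup (ℝ ≃o ℝ)} {p t0 t : ℝ}

theorem chain_ld_mul {f g : ℝ ≃o ℝ} (hf : Rg f) (hg : Rg g) (x : ℝ) :
    ld (f * g) x = ld f (g x) + ld g x := by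
  have h1 : deriv ((f * g : ℝ ≃o ℝ) : ℝ → ℝ) x =
      deriv (f : ℝ → ℝ) (g x) * deriv (g : ℝ → ℝ) x := by
    have h2 : ((f * g : ℝ ≃o ℝ) : ℝ → ℝ) = (f : ℝ → ℝ) ∘ (g : ℝ → ℝ) := rfl
    rw [h2, deriv_comp x (hf.1 _) (hg.1 _)]
  unfold ld
  rw [h1, Real.log_mul (hf.2 _).ne' (hg.2 _).ne']

theorem chain_rg_mul {f g : ℝ ≃o ℝ} (hf : Rg f) (hg : Rg g) : Rg (f * g) := by
  have h2 : ((f * g : ℝ ≃o ℝ) : ℝ → ℝ) = (f : ℝ → ℝ) ∘ (g : ℝ → ℝ) := rfl
  refine ⟨?_, fun x => ?_⟩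
  · rw [h2]
    exact hf.1.comp hg.1
  · rw [h2, deriv_comp x (hf.1 _) (hg.1 _)]
    exact mul_pos (hf.2 _) (hg.2 _)

theorem chain_rg_one : Rg (1 : ℝ ≃o ℝ) := by
  have h2 : ((1 : ℝ ≃o ℝ) : ℝ → ℝ) = id := rfl
  refine ⟨?_, fun x => ?_⟩
  · rw [h2]
    exact differentiable_id
  · rw [h2, deriv_id]
    norm_num

theorem CC_one : (1 : ℝ ≃o ℝ) ∈ CC Γ p t0 t0 := by
  refine ⟨Γ.one_mem, chain_rg_one, fun x hx => hx, fun x y _ _ => ?_⟩
  have h2 : ((1 : ℝ ≃o ℝ) : ℝ → ℝ) = id := rfl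
  unfold ld
  rw [h2, deriv_id, deriv_id, sub_self, abs_zero]
  have := hr_nonneg (|x - y| / t0)
  positivity

theorem CC_anti {t' : ℝ} (ht' : 0 < t') (h : t' ≤ t) : CC Γ p t0 t ⊆ CC Γ p t0 t' := by
  rintro g ⟨h1, h2, h3, h4⟩
  refine ⟨h1, h2, fun x hx => h3 x (by linarith), fun x y hx hy => ?_⟩
  refine (h4 x y (by linarith) (by linarith)).trans ?_
  have h5 : hr (|x - y| / t) ≤ hr (|x - y| / t') :=
    hr_mono (div_le_div_of_nonneg_left (abs_nonneg _) ht' h)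
  linarith

theorem Ru_lip {u : ℝ ≃o ℝ} (ht : 0 < t) (hu : Ru u p t) {x y : ℝ} (hx : |x - p| ≤ 2 * t)
    (hy : |y - p| ≤ 2 * t) : |u x - u y| ≤ 11 / 10000 * |x - y| := by
  have h1 : Convex ℝ (Icc (p - 2 * t) (p + 2 * t)) := convex_Icc _ _
  have h2 := h1.norm_image_sub_le_of_norm_deriv_le (f := (u : ℝ → ℝ)) (C := 11 / 10000)
    (fun z _ => hu.rg.1 z) (fun z hz => by
      rw [Real.norm_eq_abs, abs_of_pos (hu.rg.2 z)]
      exact hu.der z (by rw [abs_le]; constructor <;> linarith [hz.1, hz.2]))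
    (x := y) (y := x) (by rw [abs_le] at hy; constructor <;> linarith [hy.1, hy.2])
    (by rw [abs_le] at hx; constructor <;> linarith [hx.1, hx.2])
  simpa [Real.norm_eq_abs] using h2

theorem CC_mul {g u : ℝ ≃o ℝ} (ht : 0 < t) (hg : g ∈ CC Γ p t0 t) (hu : Ru u p t)
    (huΓ : u ∈ Γ) : g * u ∈ CC Γ p t0 t := by
  obtain ⟨h1, h2, h3, h4⟩ := hg
  have hmap : ∀ x, |x - p| ≤ 2 * t → |u x - p| ≤ 2 * t := fun x hx => by
    have := hu.map x hx
    linarith
  refine ⟨Γ.mul_mem h1 huΓ, chain_rg_mul h2 hu.rg, fun x hx => h3 _ (hmap x hx),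
    fun x y hx hy => ?_⟩
  rw [chain_ld_mul h2 hu.rg, chain_ld_mul h2 hu.rg]
  have h5 := h4 _ _ (hmap x hx) (hmap y hy)
  have h6 := hu.h x y hx hy
  have h7 : hr (|u x - u y| / t) ≤ 19 / 100 * hr (|x - y| / t) := by
    have h8 : |u x - u y| / t ≤ 11 / 10000 * (|x - y| / t) := by
      rw [← mul_div_assoc]
      exact div_le_div_of_nonneg_right (Ru_lip ht hu hx hy) ht.le
    refine (hr_mono h8).trans ?_
    rw [hr_mul (by norm_num)]
    exact mul_le_mul_of_nonneg_right (hr_le (by norm_num) (by norm_num)) (hr_nonneg _)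
  have h8 : (ld g (u x) + ld u x) - (ld g (u y) + ld u y) =
      (ld g (u x) - ld g (u y)) + (ld u x - ld u y) := by ring
  rw [h8]
  refine (abs_add_le _ _).trans ?_
  have h9 := hr_nonneg (|x - y| / t)
  linarith

theorem CC_db {g : ℝ ≃o ℝ} (ht : 0 < t) (hg : g ∈ CC Γ p t0 t) :
    DB g (p - 2 * t) (p + 2 * t) (3 / 100) := by
  obtain ⟨h1, h2, h3, h4⟩ := hg
  intro x hx y hy
  have h5 := h4 x y (by rw [abs_le]; constructor <;> linarith [hx.1, hx.2])
    (by rw [abs_le]; constructor <;> linarith [hy.1, hy.2])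
  refine h5.trans ?_
  have h6 : |x - y| / t ≤ 4 := by
    rw [div_le_iff₀ ht, abs_le]
    constructor <;> linarith [hx.1, hx.2, hy.1, hy.2]
  have h7 : hr (|x - y| / t) ≤ 3 / 2 := hr_le (by norm_num) (h6.trans (by norm_num))
  linarith

theorem chain_image (g : ℝ ≃o ℝ) (a b : ℝ) : (g : ℝ → ℝ) '' Ioo a b = Ioo (g a) (g b) :=
  g.image_Ioo a b

/-- the union of the images is open -/
theorem HH_open (Γ : Subgroup (ℝ ≃o ℝ)) (p t0 t : ℝ) : IsOpen (HH Γ p t0 t) := by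
  unfold HH
  refine isOpen_biUnion fun g _ => ?_
  rw [chain_image]
  exact isOpen_Ioo

theorem HH_sub (ht : 0 < t) : HH Γ p t0 t ⊆ Icc (p - 2 * t0) (p + 2 * t0) := by
  intro z hz
  simp only [HH, mem_iUnion] at hz
  obtain ⟨g, hg, x, hx, rfl⟩ := hz
  have h1 := hg.2.2.1 x (by rw [abs_le]; constructor <;> linarith [hx.1, hx.2])
  rw [abs_le] at h1
  constructor <;> linarith [h1.1, h1.2]

theorem exp_three : Real.exp (3 / 100) ≤ 21 / 20 := by
  have h1 := Real.exp_bound_div_one_sub_of_interval (x := 3 / 100) (by norm_num) (by norm_num)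
  refine h1.trans (by norm_num)

theorem exp_six : Real.exp (3 / 100) * Real.exp (3 / 100) ≤ 11 / 10 := by
  have h1 := exp_three
  have h2 := Real.exp_pos (3 / 100)
  have h3 := Real.exp_bound_div_one_sub_of_interval (x := 3 / 100) (by norm_num) (by norm_num)
  have h4 : Real.exp (3 / 100) ≤ 104 / 100 := h3.trans (by norm_num)
  nlinarith

/-- the ratio of the lengths of the images of the two boxes -/
theorem CC_ratio {g : ℝ ≃o ℝ} (ht : 0 < t) (hg : g ∈ CC Γ p t0 t) :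
    (g (p + 2 * t) - g (p - 2 * t)) / (4 * t) ≤
      Real.exp (3 / 100) * ((g (p + t) - g (p - t)) / (2 * t)) := by
  have hd := CC_db ht hg
  have hR := hg.2.1
  obtain ⟨ξ, hξ, hξ'⟩ := exists_deriv_eq_slope (g : ℝ → ℝ) (a := p - 2 * t) (b := p + 2 * t)
    (by linarith) hR.1.continuous.continuousOn hR.1.differentiableOn
  obtain ⟨ζ, hζ, hζ'⟩ := exists_deriv_eq_slope (g : ℝ → ℝ) (a := p - t) (b := p + t)
    (by linarith) hR.1.continuous.continuousOn hR.1.differentiableOn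
  have e1 : p + 2 * t - (p - 2 * t) = 4 * t := by ring
  have e2 : p + t - (p - t) = 2 * t := by ring
  rw [e1] at hξ'
  rw [e2] at hζ'
  rw [← hξ', ← hζ']
  have h1 := hd ξ ⟨hξ.1.le, hξ.2.le⟩ ζ ⟨by linarith [hζ.1], by linarith [hζ.2]⟩
  have h2 : ld g ξ ≤ 3 / 100 + ld g ζ := by linarith [(abs_le.1 h1).2]
  have h3 := Real.exp_le_exp.2 h2
  rw [Real.exp_add] at h3
  unfold ld at h3
  rwa [Real.exp_log (hR.2 _), Real.exp_log (hR.2 _)] at h3

theorem chain_vol (g : ℝ ≃o ℝ) (a b : ℝ) :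
    volume ((g : ℝ → ℝ) '' Ioo a b) = ENNReal.ofReal (g b - g a) := by
  rw [chain_image, Real.volume_Ioo]

/-- the part of the image of the box which is covered by the images of the returns -/
theorem chain_shell {g : ℝ ≃o ℝ} (ht : 0 < t) (hg : g ∈ CC Γ p t0 t) {s : Finset (ℝ ≃o ℝ)}
    (hs : ∀ u ∈ s, Ru u p t ∧ ∃ z ∈ (u : ℝ → ℝ) '' Ioo (p - t) (p + t),
      z ∈ Ioo (p - t) (p + t) ∧ z ∉ Ioo (p - 9 / 10 * t) (p + 9 / 10 * t)) :
    volume (⋃ u ∈ s, (g : ℝ → ℝ) '' ((u : ℝ → ℝ) '' Ioo (p - t) (p + t))) ≤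
      ENNReal.ofReal (3 / 20) * volume ((g : ℝ → ℝ) '' Ioo (p - t) (p + t)) := by
  set S : Set ℝ := Icc (p - t - 22 / 10000 * t) (p - 9 / 10 * t + 22 / 10000 * t) ∪
    Icc (p + 9 / 10 * t - 22 / 10000 * t) (p + t + 22 / 10000 * t) with hS
  have hSm : MeasurableSet S := measurableSet_Icc.union measurableSet_Icc
  have hSs : S ⊆ Icc (p - 2 * t) (p + 2 * t) := by
    rintro x (hx | hx) <;> constructor <;> linarith [hx.1, hx.2]
  have h1 : (⋃ u ∈ s, (g : ℝ → ℝ) '' ((u : ℝ → ℝ) '' Ioo (p - t) (p + t))) ⊆ (g : ℝ → ℝ) '' S := by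
    intro w hw
    simp only [mem_iUnion] at hw
    obtain ⟨u, hu, y, ⟨x, hx, rfl⟩, rfl⟩ := hw
    obtain ⟨hru, z, ⟨x', hx', rfl⟩, hz1, hz2⟩ := hs u hu
    refine ⟨u x, ?_, rfl⟩
    have h2 := Ru_lip ht hru (x := x) (y := x')
      (by rw [abs_le]; constructor <;> linarith [hx.1, hx.2])
      (by rw [abs_le]; constructor <;> linarith [hx'.1, hx'.2])
    have h3 : |x - x'| ≤ 2 * t := by
      rw [abs_le]; constructor <;> linarith [hx.1, hx.2, hx'.1, hx'.2]
    have h4 : |u x - u x'| ≤ 22 / 10000 * t := by linarith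
    rw [abs_le] at h4
    by_cases h5 : u x' ≤ p - 9 / 10 * t
    · left
      constructor <;> linarith [h4.1, h4.2, hz1.1]
    · right
      have h6 : p + 9 / 10 * t ≤ u x' := by
        by_contra h7
        exact hz2 ⟨not_le.1 h5, not_le.1 h7⟩
      constructor <;> linarith [h4.1, h4.2, hz1.2]
  refine (measure_mono h1).trans ?_
  have h2 := img_le hg.2.1 (by linarith : p - 2 * t < p + 2 * t) (CC_db ht hg) hSm hSs
  refine h2.trans ?_
  have e1 : p + 2 * t - (p - 2 * t) = 4 * t := by ring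
  rw [e1, chain_vol]
  have h3 : volume S ≤ ENNReal.ofReal (2088 / 10000 * t) := by
    refine (measure_union_le _ _).trans ?_
    rw [Real.volume_Icc, Real.volume_Icc, ← ENNReal.ofReal_add (by linarith) (by linarith)]
    refine ENNReal.ofReal_le_ofReal (by linarith)
  have hg0 : 0 < g (p + t) - g (p - t) := sub_pos.2 (g.lt_iff_lt.2 (by linarith))
  have h4 := CC_ratio ht hg
  have h5 := exp_six
  have he := Real.exp_pos (3 / 100)
  calc ENNReal.ofReal (Real.exp (3 / 100) * ((g (p + 2 * t) - g (p - 2 * t)) / (4 * t))) * volume S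
      ≤ ENNReal.ofReal (Real.exp (3 / 100) * (Real.exp (3 / 100) *
          ((g (p + t) - g (p - t)) / (2 * t)))) * ENNReal.ofReal (2088 / 10000 * t) := by
        gcongr
    _ = ENNReal.ofReal (Real.exp (3 / 100) * Real.exp (3 / 100) *
          ((g (p + t) - g (p - t)) * (1044 / 10000))) := by
        rw [← ENNReal.ofReal_mul (by positivity)]
        congr 1
        field_simp
        ring
    _ ≤ ENNReal.ofReal (3 / 20 * (g (p + t) - g (p - t))) := by
        refine ENNReal.ofReal_le_ofReal ?_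
        nlinarith
    _ = _ := by rw [ENNReal.ofReal_mul (by norm_num)]

/-- the box without the returns -/
def chE (U : Set (ℝ ≃o ℝ)) (p t : ℝ) : Set ℝ :=
  Ioo (p - t) (p + t) \ ⋃ u ∈ U, (u : ℝ → ℝ) '' Ioo (p - t) (p + t)

theorem chE_meas (U : Set (ℝ ≃o ℝ)) (p t : ℝ) : MeasurableSet (chE U p t) := by
  refine measurableSet_Ioo.diff (IsOpen.measurableSet (isOpen_biUnion fun u _ => ?_))
  rw [chain_image]
  exact isOpen_Ioo

theorem chain_step {U : Set (ℝ ≃o ℝ)} (hf : U.Finite) (hU : ∀ u ∈ U, u ∈ Γ ∧ Ru u p t)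
    (ht : 0 < t) {Y : Set ℝ}
    (hY : ∀ g ∈ CC Γ p t0 t, ∀ x ∈ Ioo (p - 9 / 10 * t) (p + 9 / 10 * t), g x ∉ Y)
    {φ : ENNReal} (hφ : ∀ g ∈ CC Γ p t0 t, volume (Y ∩ (g : ℝ → ℝ) '' Ioo (p - t) (p + t)) ≤
      φ * volume ((g : ℝ → ℝ) '' Ioo (p - t) (p + t))) {g : ℝ ≃o ℝ} (hg : g ∈ CC Γ p t0 t) :
    volume (Y ∩ (g : ℝ → ℝ) '' Ioo (p - t) (p + t)) ≤
      (ENNReal.ofReal (21 / 20) * (volume (chE U p t) / ENNReal.ofReal (2 * t)) +
        ENNReal.ofReal (3 / 10) * φ) * volume ((g : ℝ → ℝ) '' Ioo (p - t) (p + t)) := by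
  classical
  set s : Finset (ℝ ≃o ℝ) := hf.toFinset.filter (fun u =>
    ∃ z ∈ (u : ℝ → ℝ) '' Ioo (p - t) (p + t),
      z ∈ Ioo (p - t) (p + t) ∧ z ∉ Ioo (p - 9 / 10 * t) (p + 9 / 10 * t)) with hs
  have hs1 : ∀ u ∈ s, u ∈ Γ ∧ Ru u p t ∧ ∃ z ∈ (u : ℝ → ℝ) '' Ioo (p - t) (p + t),
      z ∈ Ioo (p - t) (p + t) ∧ z ∉ Ioo (p - 9 / 10 * t) (p + 9 / 10 * t) := by
    intro u hu
    rw [hs, Finset.mem_filter, Set.Finite.mem_toFinset] at hu
    exact ⟨(hU u hu.1).1, (hU u hu.1).2, hu.2⟩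
  have hcov : Y ∩ (g : ℝ → ℝ) '' Ioo (p - t) (p + t) ⊆ (g : ℝ → ℝ) '' chE U p t ∪
      (Y ∩ ⋃ u ∈ s, Ioo (g (u (p - t))) (g (u (p + t)))) := by
    rintro w ⟨hwY, x, hx, rfl⟩
    by_cases h1 : x ∈ chE U p t
    · exact Or.inl ⟨x, h1, rfl⟩
    · right
      refine ⟨hwY, ?_⟩
      have h2 : x ∈ ⋃ u ∈ U, (u : ℝ → ℝ) '' Ioo (p - t) (p + t) := by
        by_contra h3
        exact h1 ⟨hx, h3⟩
      simp only [mem_iUnion] at h2 ⊢
      obtain ⟨u, hu, hxu⟩ := h2
      refine ⟨u, ?_, ?_⟩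
      · rw [hs, Finset.mem_filter, Set.Finite.mem_toFinset]
        exact ⟨hu, x, hxu, hx, fun h3 => hY g hg x h3 hwY⟩
      · rw [← chain_image g, ← chain_image u]
        exact ⟨x, hxu, rfl⟩
  obtain ⟨s', hs', hun, hsum⟩ := cover2 s (fun u : ℝ ≃o ℝ => g (u (p - t)))
    (fun u : ℝ ≃o ℝ => g (u (p + t)))
  have himg : ∀ u : ℝ ≃o ℝ, Ioo (g (u (p - t))) (g (u (p + t))) =
      ((g * u : ℝ ≃o ℝ) : ℝ → ℝ) '' Ioo (p - t) (p + t) := fun u => by
    rw [chain_image]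
    rfl
  have h2 : volume (Y ∩ ⋃ u ∈ s, Ioo (g (u (p - t))) (g (u (p + t)))) ≤
      ENNReal.ofReal (3 / 10) * φ * volume ((g : ℝ → ℝ) '' Ioo (p - t) (p + t)) := by
    rw [← hun]
    have h3 : Y ∩ ⋃ u ∈ s', Ioo (g (u (p - t))) (g (u (p + t))) =
        ⋃ u ∈ s', Y ∩ Ioo (g (u (p - t))) (g (u (p + t))) := by
      rw [inter_iUnion₂]
    rw [h3]
    refine (measure_biUnion_finset_le _ _).trans ?_
    have h4 : ∀ u ∈ s', volume (Y ∩ Ioo (g (u (p - t))) (g (u (p + t)))) ≤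
        φ * volume (Ioo (g (u (p - t))) (g (u (p + t)))) := by
      intro u hu
      have h5 := hs1 u (hs' hu)
      rw [himg]
      exact hφ _ (CC_mul ht hg h5.2.1 h5.1)
    refine (Finset.sum_le_sum h4).trans ?_
    rw [← Finset.mul_sum]
    refine (mul_le_mul_right hsum φ).trans ?_
    have h6 : (⋃ u ∈ s, Ioo (g (u (p - t))) (g (u (p + t)))) =
        ⋃ u ∈ s, (g : ℝ → ℝ) '' ((u : ℝ → ℝ) '' Ioo (p - t) (p + t)) := by
      refine iUnion₂_congr fun u _ => ?_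
      rw [chain_image, chain_image]
    rw [h6]
    have h7 := chain_shell ht hg (s := s) fun u hu => (hs1 u hu).2
    calc φ * (2 * volume (⋃ u ∈ s, (g : ℝ → ℝ) '' ((u : ℝ → ℝ) '' Ioo (p - t) (p + t))))
        ≤ φ * (2 * (ENNReal.ofReal (3 / 20) * volume ((g : ℝ → ℝ) '' Ioo (p - t) (p + t)))) := by
          gcongr
      _ = (2 * ENNReal.ofReal (3 / 20)) * φ * volume ((g : ℝ → ℝ) '' Ioo (p - t) (p + t)) := by
          ring
      _ = _ := by
          congr 2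
          rw [← ENNReal.ofReal_ofNat 2, ← ENNReal.ofReal_mul (by norm_num)]
          norm_num
  have hd1 : DB g (p - t) (p + t) (3 / 100) := fun x hx y hy =>
    CC_db ht hg x ⟨by linarith [hx.1], by linarith [hx.2]⟩ y
      ⟨by linarith [hy.1], by linarith [hy.2]⟩
  have h1 : volume ((g : ℝ → ℝ) '' chE U p t) ≤
      ENNReal.ofReal (21 / 20) * (volume (chE U p t) / ENNReal.ofReal (2 * t)) *
        volume ((g : ℝ → ℝ) '' Ioo (p - t) (p + t)) := by
    have hg0 : 0 < g (p + t) - g (p - t) := sub_pos.2 (g.lt_iff_lt.2 (by linarith))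
    refine (img_le hg.2.1 (by linarith : p - t < p + t) hd1 (chE_meas U p t)
      (fun x hx => ⟨hx.1.1.le, hx.1.2.le⟩)).trans ?_
    have e2 : p + t - (p - t) = 2 * t := by ring
    rw [e2, chain_vol]
    have h3 := exp_three
    calc ENNReal.ofReal (Real.exp (3 / 100) * ((g (p + t) - g (p - t)) / (2 * t))) *
          volume (chE U p t)
        ≤ ENNReal.ofReal (21 / 20 * ((g (p + t) - g (p - t)) / (2 * t))) *
          volume (chE U p t) := by
          gcongr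
      _ = _ := by
          have e3 : ENNReal.ofReal (21 / 20 * ((g (p + t) - g (p - t)) / (2 * t))) =
              ENNReal.ofReal (21 / 20) * (ENNReal.ofReal (g (p + t) - g (p - t)) *
                (ENNReal.ofReal (2 * t))⁻¹) := by
            have e4 : ENNReal.ofReal ((g (p + t) - g (p - t)) / (2 * t)) =
                ENNReal.ofReal (g (p + t) - g (p - t)) / ENNReal.ofReal (2 * t) :=
              ENNReal.ofReal_div_of_pos (by linarith)
            rw [ENNReal.ofReal_mul (by norm_num), e4,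
              div_eq_mul_inv (ENNReal.ofReal (g (p + t) - g (p - t)))]
          rw [e3, div_eq_mul_inv (volume (chE U p t))]
          ring
  refine (measure_mono hcov).trans ((measure_union_le _ _).trans ?_)
  refine (add_le_add h1 h2).trans (le_of_eq ?_)
  rw [add_mul]

theorem chain_iter {U : Set (ℝ ≃o ℝ)} (hf : U.Finite) (hU : ∀ u ∈ U, u ∈ Γ ∧ Ru u p t)
    (ht : 0 < t) {Y : Set ℝ}
    (hY : ∀ g ∈ CC Γ p t0 t, ∀ x ∈ Ioo (p - 9 / 10 * t) (p + 9 / 10 * t), g x ∉ Y) (j : ℕ) :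
    ∀ g ∈ CC Γ p t0 t, volume (Y ∩ (g : ℝ → ℝ) '' Ioo (p - t) (p + t)) ≤
      (ENNReal.ofReal (3 / 2) * (volume (chE U p t) / ENNReal.ofReal (2 * t)) +
        ENNReal.ofReal (3 / 10) ^ j) * volume ((g : ℝ → ℝ) '' Ioo (p - t) (p + t)) := by
  induction j with
  | zero =>
    intro g _
    refine (measure_mono inter_subset_right).trans ?_
    rw [pow_zero]
    calc volume ((g : ℝ → ℝ) '' Ioo (p - t) (p + t))
        = 1 * volume ((g : ℝ → ℝ) '' Ioo (p - t) (p + t)) := (one_mul _).symm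
      _ ≤ _ := by
        gcongr
        exact le_add_self
  | succ j ih =>
    intro g hg
    refine (chain_step hf hU ht hY ih hg).trans (le_of_eq ?_)
    congr 1
    have h1 : ENNReal.ofReal (3 / 2) = ENNReal.ofReal (21 / 20) +
        ENNReal.ofReal (3 / 10) * ENNReal.ofReal (3 / 2) := by
      rw [← ENNReal.ofReal_mul (by norm_num), ← ENNReal.ofReal_add (by norm_num) (by norm_num)]
      norm_num
    generalize volume (chE U p t) / ENNReal.ofReal (2 * t) = e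
    calc ENNReal.ofReal (21 / 20) * e + ENNReal.ofReal (3 / 10) *
          (ENNReal.ofReal (3 / 2) * e + ENNReal.ofReal (3 / 10) ^ j)
        = (ENNReal.ofReal (21 / 20) + ENNReal.ofReal (3 / 10) * ENNReal.ofReal (3 / 2)) * e +
          ENNReal.ofReal (3 / 10) ^ (j + 1) := by ring
      _ = _ := by rw [← h1]

theorem chain_phi {U : Set (ℝ ≃o ℝ)} (hf : U.Finite) (hU : ∀ u ∈ U, u ∈ Γ ∧ Ru u p t)
    (ht : 0 < t) {Y : Set ℝ}
    (hY : ∀ g ∈ CC Γ p t0 t, ∀ x ∈ Ioo (p - 9 / 10 * t) (p + 9 / 10 * t), g x ∉ Y)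
    {g : ℝ ≃o ℝ} (hg : g ∈ CC Γ p t0 t) :
    volume (Y ∩ (g : ℝ → ℝ) '' Ioo (p - t) (p + t)) ≤
      ENNReal.ofReal (3 / 2) * (volume (chE U p t) / ENNReal.ofReal (2 * t)) *
        volume ((g : ℝ → ℝ) '' Ioo (p - t) (p + t)) := by
  have hlt : ENNReal.ofReal (3 / 10) < 1 := by
    rw [← ENNReal.ofReal_one]
    exact (ENNReal.ofReal_lt_ofReal_iff (by norm_num)).2 (by norm_num)
  have hV : volume ((g : ℝ → ℝ) '' Ioo (p - t) (p + t)) ≠ ⊤ := by
    rw [chain_vol]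
    exact ENNReal.ofReal_ne_top
  have h1 := ENNReal.tendsto_pow_atTop_nhds_zero_of_lt_one hlt
  have h2 := ENNReal.Tendsto.mul_const (h1.const_add
    (ENNReal.ofReal (3 / 2) * (volume (chE U p t) / ENNReal.ofReal (2 * t))))
    (b := volume ((g : ℝ → ℝ) '' Ioo (p - t) (p + t))) (Or.inr hV)
  rw [add_zero] at h2
  exact ge_of_tendsto' h2 fun j => chain_iter hf hU ht hY j g hg

/-- one step of the recurrence chain -/
theorem chain_one {U : Set (ℝ ≃o ℝ)} (hf : U.Finite) (hU : ∀ u ∈ U, u ∈ Γ ∧ Ru u p t)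
    (ht : 0 < t) (ht0 : t ≤ t0) :
    volume (HH Γ p t0 t \ HH Γ p t0 (9 / 10 * t)) ≤
      ENNReal.ofReal (6 * t0 / t) * volume (chE U p t) := by
  set Y : Set ℝ := HH Γ p t0 t \ HH Γ p t0 (9 / 10 * t) with hYd
  have hYm : MeasurableSet Y :=
    (HH_open Γ p t0 t).measurableSet.diff (HH_open Γ p t0 _).measurableSet
  have hY : ∀ g ∈ CC Γ p t0 t, ∀ x ∈ Ioo (p - 9 / 10 * t) (p + 9 / 10 * t), g x ∉ Y := by
    intro g hg x hx hgx
    apply hgx.2
    simp only [HH, mem_iUnion]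
    exact ⟨g, CC_anti (by linarith) (by linarith) hg, x, hx, rfl⟩
  rw [hYm.measure_eq_iSup_isCompact_of_ne_top (μ := volume) ?_]
  · refine iSup₂_le fun C hC => iSup_le fun hCc => ?_
    have hcov : C ⊆ ⋃ g : CC Γ p t0 t, ((g : ℝ ≃o ℝ) : ℝ → ℝ) '' Ioo (p - t) (p + t) := by
      intro x hx
      have h1 := (hC hx).1
      simp only [HH, mem_iUnion] at h1 ⊢
      obtain ⟨g, hg, hx'⟩ := h1
      exact ⟨⟨g, hg⟩, hx'⟩
    obtain ⟨s, hs⟩ := hCc.elim_finite_subcover _ (fun g => by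
      rw [chain_image]
      exact isOpen_Ioo) hcov
    obtain ⟨s', hs', hun, hsum⟩ := cover2 (s.map (Function.Embedding.subtype _))
      (fun g : ℝ ≃o ℝ => g (p - t)) (fun g : ℝ ≃o ℝ => g (p + t))
    have hmem : ∀ g ∈ s', g ∈ CC Γ p t0 t := by
      intro g hg
      have := hs' hg
      rw [Finset.mem_map] at this
      obtain ⟨g', _, rfl⟩ := this
      exact g'.2
    have hmem' : ∀ g ∈ s.map (Function.Embedding.subtype _), g ∈ CC Γ p t0 t := by
      intro g hg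
      rw [Finset.mem_map] at hg
      obtain ⟨g', _, rfl⟩ := hg
      exact g'.2
    have hC2 : C ⊆ ⋃ g ∈ s', Y ∩ Ioo (g (p - t)) (g (p + t)) := by
      intro x hx
      have h1 : x ∈ ⋃ g ∈ s', Ioo (g (p - t)) (g (p + t)) := by
        rw [hun]
        have h2 := hs hx
        simp only [mem_iUnion] at h2 ⊢
        obtain ⟨g, hg, hx'⟩ := h2
        refine ⟨g, Finset.mem_map_of_mem _ hg, ?_⟩
        rwa [chain_image] at hx'
      simp only [mem_iUnion] at h1 ⊢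
      obtain ⟨g, hg, hx'⟩ := h1
      exact ⟨g, hg, hC hx, hx'⟩
    refine (measure_mono hC2).trans ((measure_biUnion_finset_le _ _).trans ?_)
    have h4 : ∀ g ∈ s', volume (Y ∩ Ioo (g (p - t)) (g (p + t))) ≤
        ENNReal.ofReal (3 / 2) * (volume (chE U p t) / ENNReal.ofReal (2 * t)) *
          volume (Ioo (g (p - t)) (g (p + t))) := by
      intro g hg
      rw [← chain_image]
      exact chain_phi hf hU ht hY (hmem g hg)
    refine (Finset.sum_le_sum h4).trans ?_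
    rw [← Finset.mul_sum]
    have h5 : volume (⋃ g ∈ s.map (Function.Embedding.subtype _),
        Ioo ((g : ℝ ≃o ℝ) (p - t)) (g (p + t))) ≤ ENNReal.ofReal (4 * t0) := by
      have h6 : (⋃ g ∈ s.map (Function.Embedding.subtype _),
          Ioo ((g : ℝ ≃o ℝ) (p - t)) (g (p + t))) ⊆ Icc (p - 2 * t0) (p + 2 * t0) := by
        intro x hx
        simp only [mem_iUnion] at hx
        obtain ⟨g, hg, hx'⟩ := hx
        refine HH_sub (Γ := Γ) ht ?_
        simp only [HH, mem_iUnion]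
        exact ⟨g, hmem' g hg, by rw [chain_image]; exact hx'⟩
      refine (measure_mono h6).trans ?_
      rw [Real.volume_Icc]
      exact ENNReal.ofReal_le_ofReal (by linarith)
    calc ENNReal.ofReal (3 / 2) * (volume (chE U p t) / ENNReal.ofReal (2 * t)) *
          ∑ g ∈ s', volume (Ioo (g (p - t)) (g (p + t)))
        ≤ ENNReal.ofReal (3 / 2) * (volume (chE U p t) / ENNReal.ofReal (2 * t)) *
          (2 * ENNReal.ofReal (4 * t0)) := by
          gcongr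
          exact hsum.trans (by gcongr)
      _ = ENNReal.ofReal (6 * t0 / t) * volume (chE U p t) := by
          have e1 : ENNReal.ofReal (6 * t0 / t) = ENNReal.ofReal (3 / 2) * (ENNReal.ofReal (2 * t))⁻¹ *
              (2 * ENNReal.ofReal (4 * t0)) := by
            rw [← ENNReal.ofReal_inv_of_pos (by linarith), ← ENNReal.ofReal_mul (by norm_num),
              ← ENNReal.ofReal_ofNat 2, ← ENNReal.ofReal_mul (by norm_num),
              ← ENNReal.ofReal_mul (by positivity)]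
            congr 1
            field_simp
            ring
          rw [e1, div_eq_mul_inv (volume (chE U p t))]
          ring
  · refine ne_top_of_le_ne_top ?_ (measure_mono (diff_subset.trans (HH_sub ht)))
    rw [Real.volume_Icc]
    exact ENNReal.ofReal_ne_top

/-- the recurrence chain -/
theorem chain_all {U : ℕ → Set (ℝ ≃o ℝ)} (ht0 : 0 < t0) (k : ℕ) (hf : ∀ n < k, (U n).Finite)
    (hU : ∀ n < k, ∀ u ∈ U n, u ∈ Γ ∧ Ru u p ((9 / 10) ^ n * t0)) :
    volume (Ioo (p - t0) (p + t0) \ HH Γ p t0 ((9 / 10) ^ k * t0)) ≤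
      ∑ n ∈ Finset.range k, ENNReal.ofReal (6 / (9 / 10) ^ n) *
        volume (chE (U n) p ((9 / 10) ^ n * t0)) := by
  induction k with
  | zero =>
    rw [pow_zero, one_mul, Finset.range_zero, Finset.sum_empty, nonpos_iff_eq_zero,
      diff_eq_empty.2, measure_empty]
    intro x hx
    simp only [HH, mem_iUnion]
    exact ⟨1, CC_one, x, hx, rfl⟩
  | succ k ih =>
    rw [Finset.sum_range_succ]
    have h1 := ih (fun n hn => hf n (by omega)) (fun n hn => hU n (by omega))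
    have hp : (0 : ℝ) < (9 / 10) ^ k := by positivity
    have h2 := chain_one (t0 := t0) (hf k (by omega)) (hU k (by omega)) (by positivity) (by
      have : (9 / 10 : ℝ) ^ k ≤ 1 := pow_le_one₀ (by norm_num) (by norm_num)
      nlinarith)
    have e1 : (9 / 10 : ℝ) ^ (k + 1) * t0 = 9 / 10 * ((9 / 10) ^ k * t0) := by ring
    have e2 : 6 * t0 / ((9 / 10 : ℝ) ^ k * t0) = 6 / (9 / 10) ^ k := by
      field_simp
    rw [e2] at h2
    rw [e1]
    refine (measure_mono ?_).trans ((measure_union_le _ _).trans (add_le_add h1 h2))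
    rintro x ⟨hx1, hx2⟩
    by_cases h3 : x ∈ HH Γ p t0 ((9 / 10) ^ k * t0)
    · exact Or.inr ⟨h3, hx2⟩
    · exact Or.inl ⟨hx1, h3⟩

end Pool.Agent.H66.GSC
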