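import Mathlib
import Pool.Agent.H66.GSC.Ret
import Pool.Agent.H66.GSC.Dis
import Pool.Agent.H51.GSC.Chain

/-!
# Project GSC (helper51), MP_20ddb5_an: the recurrence chain of a path
-/

set_option autoImplicit false
open Set Filter Topology MeasureTheory

namespace Pool.Agent.H66.GSC

open Pool.Agent.H24.GN (ld Rg DB)

/-- the return maps of a path are return maps -/
theorem UU_ru {K : ℝ} {N : ℕ} {v σ : ℕ → ℝ ≃o ℝ} {a : ℕ → ℝ → ℝ}
    {x1 p x2 : ℝ} (hP : Path K N v σ a x1 p x2) {Γ : Subgroup (ℝ ≃o ℝ)}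
    (hΓ : ∀ i ≤ N, v i ∈ Γ) {t : ℝ} (ht : 0 < t) {τ : ℕ} (hτ : τ ≤ N)
    (hg : ∀ i < τ, Gd (v i) x1 p x2 t) : ∀ u ∈ UU v p t τ, u ∈ Γ ∧ Ru u p t := by
  rintro u ⟨i, j, hij, hj, rfl, z, z', hz, hz', h⟩
  refine ⟨Γ.mul_mem (Γ.inv_mem (hΓ j (by omega))) (hΓ i (by omega)), ?_⟩
  exact ret ht (hP.rg i (by omega)) (hP.rg j (by omega)) (hg i (by omega)) (hg j hj)
    (hP.sep i j hij (by omega)) hz hz' h

/-- the recurrence chain of a path -/
theorem ret_chain {K : ℝ} (hK : 1 ≤ K) {N : ℕ} {v σ : ℕ → ℝ ≃o ℝ} {a : ℕ → ℝ → ℝ}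
    {x1 p x2 : ℝ} (hP : Path K N v σ a x1 p x2) {Γ : Subgroup (ℝ ≃o ℝ)}
    (hΓ : ∀ i ≤ N, v i ∈ Γ) {t0 : ℝ} (ht0 : 0 < t0) (h1 : t0 ≤ p - x1) (h2 : t0 ≤ x2 - p)
    {k : ℕ} {τ : ℕ → ℕ} (hτ : ∀ n < k, τ n ≤ N) (hτ0 : ∀ n < k, 0 < τ n)
    (hg : ∀ n < k, ∀ i < τ n, Gd (v i) x1 p x2 ((9 / 10) ^ n * t0)) :
    volume (Ioo (p - t0) (p + t0) \ HH Γ p t0 ((9 / 10) ^ k * t0)) ≤
      ENNReal.ofReal (∑ n ∈ Finset.range k, 60 * t0 /
        ∑ i ∈ Finset.range (τ n), (9 / 10) ^ n * t0 * deriv (v i : ℝ → ℝ) p) := by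
  have htn : ∀ n : ℕ, 0 < (9 / 10 : ℝ) ^ n * t0 := fun n => by positivity
  have htn' : ∀ n : ℕ, (9 / 10 : ℝ) ^ n * t0 ≤ t0 := fun n => by
    have : (9 / 10 : ℝ) ^ n ≤ 1 := pow_le_one₀ (by norm_num) (by norm_num)
    nlinarith
  have hpos : ∀ n < k, 0 < ∑ i ∈ Finset.range (τ n), deriv (v i : ℝ → ℝ) p := by
    intro n hn
    refine Finset.sum_pos (fun i hi => ?_) ⟨0, Finset.mem_range.2 (hτ0 n hn)⟩
    have hi' := Finset.mem_range.1 hi
    have := hτ n hn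
    exact (hP.rg i (by omega)).2 p
  have h3 := chain_all (p := p) (Γ := Γ) ht0 k (U := fun n => UU v p ((9 / 10) ^ n * t0) (τ n))
    (fun n _ => UU_finite _ _ _ _)
    (fun n hn => UU_ru hP hΓ (htn n) (hτ n hn) (hg n hn))
  refine h3.trans ?_
  rw [ENNReal.ofReal_sum_of_nonneg]
  · refine Finset.sum_le_sum fun n hn => ?_
    have hn' := Finset.mem_range.1 hn
    have h4 := E_bound hK hP (htn n) ((htn' n).trans h1) ((htn' n).trans h2) (hτ n hn')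
      (hτ0 n hn') (hg n hn')
    have h5 : volume (chE (UU v p ((9 / 10) ^ n * t0) (τ n)) p ((9 / 10) ^ n * t0)) ≤
        ENNReal.ofReal (10 / ∑ i ∈ Finset.range (τ n), deriv (v i : ℝ → ℝ) p) := h4
    have hp := hpos n hn'
    have hpn : (0 : ℝ) < (9 / 10) ^ n := by positivity
    calc ENNReal.ofReal (6 / (9 / 10) ^ n) *
          volume (chE (UU v p ((9 / 10) ^ n * t0) (τ n)) p ((9 / 10) ^ n * t0))
        ≤ ENNReal.ofReal (6 / (9 / 10) ^ n) *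
          ENNReal.ofReal (10 / ∑ i ∈ Finset.range (τ n), deriv (v i : ℝ → ℝ) p) := by
          gcongr
      _ = _ := by
          rw [← ENNReal.ofReal_mul (by positivity), ← Finset.mul_sum]
          congr 1
          field_simp
          norm_num
  · intro n hn
    have hn' := Finset.mem_range.1 hn
    have hp := hpos n hn'
    rw [← Finset.mul_sum]
    have := htn n
    positivity

end Pool.Agent.H66.GSC
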