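import Mathlib
import Pool.Agent.H66.GSC.Main
import Pool.Agent.H51.GSC.RetChain

/-!
# Project GSC (helper51), MP_20ddb5_an: the path theorem

Section 2 of note 1871: the stopping times, the Cauchy-Schwarz inequality and the energy.
-/

set_option autoImplicit false
open Set Filter Topology MeasureTheory

namespace Pool.Agent.H66.GSC

open Pool.Agent.H24.GN (ld Rg DB)

variable {K : ℝ} {N : ℕ} {v σ : ℕ → ℝ ≃o ℝ} {a : ℕ → ℝ → ℝ} {x1 p x2 : ℝ}

/-- a good box stays good when it is made smaller -/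
theorem Gd_anti {w : ℝ ≃o ℝ} (hw : Rg w) {t t' : ℝ} (ht' : 0 < t') (h : t' ≤ t)
    (hg : Gd w x1 p x2 t) : Gd w x1 p x2 t' := by
  have hD := hw.2 p
  refine ⟨le_trans ?_ hg.r, le_trans ?_ hg.l, fun x hx y hy => ?_⟩
  · have := mul_le_mul_of_nonneg_right h hD.le
    linarith
  · have := mul_le_mul_of_nonneg_right h hD.le
    linarith
  · refine (hg.h x ⟨by linarith [hx.1], by linarith [hx.2]⟩ y
      ⟨by linarith [hy.1], by linarith [hy.2]⟩).trans ?_
    have h5 : hr (|x - y| / t) ≤ hr (|x - y| / t') :=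
      hr_mono (div_le_div_of_nonneg_left (abs_nonneg _) ht' h)
    linarith

theorem path_ld_zero (hP : Path K N v σ a x1 p x2) (x : ℝ) : ld (v 0) x = 0 := by
  unfold ld
  rw [hP.v0, Real.log_one]

theorem path_sub_zero (hP : Path K N v σ a x1 p x2) {x y : ℝ} (hxy : x < y) :
    v 0 y - v 0 x = y - x := by
  have hR := hP.rg 0 (Nat.zero_le _)
  obtain ⟨ξ, hξ, hξ'⟩ := exists_deriv_eq_slope (v 0 : ℝ → ℝ) hxy
    hR.1.continuous.continuousOn hR.1.differentiableOn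
  rw [hP.v0, eq_div_iff (by linarith)] at hξ'
  linarith

/-- time zero is good -/
theorem path_good_zero (hP : Path K N v σ a x1 p x2) {t : ℝ} (ht : 0 < t)
    (h1 : 100000 * t ≤ p - x1) (h2 : 100000 * t ≤ x2 - p) : Gd (v 0) x1 p x2 t := by
  refine ⟨?_, ?_, fun x _ y _ => ?_⟩
  · rw [hP.v0, path_sub_zero hP hP.lt2]
    linarith
  · rw [hP.v0, path_sub_zero hP hP.lt1]
    linarith
  · rw [path_ld_zero hP, path_ld_zero hP, sub_self, abs_zero]
    have := hr_nonneg (|x - y| / t)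
    positivity

/-- a function whose derivative has bounded logarithm is Lipschitz -/
theorem path_lip_aux {w : ℝ ≃o ℝ} (hw : Rg w) {C : ℝ}
    (h : ∀ x ∈ Icc x1 x2, ∀ y ∈ Icc x1 x2, |ld w x - ld w y| ≤ C * |x - y|) (hC : 0 ≤ C)
    (hx : x1 < x2) : ∃ M : ℝ, 0 ≤ M ∧ ∀ x ∈ Icc x1 x2, ∀ y ∈ Icc x1 x2,
      |w x - w y| ≤ M * |x - y| := by
  refine ⟨Real.exp (ld w x1 + C * (x2 - x1)), (Real.exp_pos _).le, fun x hx1 y hy1 => ?_⟩
  have h2 := (convex_Icc x1 x2).norm_image_sub_le_of_norm_deriv_le (f := (w : ℝ → ℝ))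
    (C := Real.exp (ld w x1 + C * (x2 - x1)))
    (fun z _ => hw.1 z) (fun z hz => by
      rw [Real.norm_eq_abs, abs_of_pos (hw.2 z)]
      have h3 := h z hz x1 (left_mem_Icc.2 hx.le)
      have h4 : |z - x1| ≤ x2 - x1 := by
        rw [abs_le]; constructor <;> linarith [hz.1, hz.2]
      have h5 : ld w z ≤ ld w x1 + C * (x2 - x1) := by
        have := (abs_le.1 h3).2
        have := mul_le_mul_of_nonneg_left h4 hC
        linarith
      have h6 : deriv (w : ℝ → ℝ) z = Real.exp (ld w z) := by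
        unfold ld
        rw [Real.exp_log (hw.2 z)]
      rw [h6]
      exact Real.exp_le_exp.2 h5) hy1 hx1
  simpa [Real.norm_eq_abs] using h2

theorem sm_lip {σ : ℝ ≃o ℝ} {a : ℝ → ℝ} (hs : Sm K σ a) (x y : ℝ) :
    |ld σ x - ld σ y| ≤ K * |x - y| := by
  have h2 := convex_univ.norm_image_sub_le_of_norm_deriv_le (f := ld σ) (C := K)
    (fun z _ => (hs.der z).differentiableAt) (fun z _ => by
      rw [(hs.der z).deriv, Real.norm_eq_abs]
      exact hs.bd z) (mem_univ y) (mem_univ x)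
  simpa [Real.norm_eq_abs] using h2

/-- the prefixes have Lipschitz log-derivatives -/
theorem path_lip (hK : 1 ≤ K) (hP : Path K N v σ a x1 p x2) (j : ℕ) (hj : j ≤ N) :
    ∃ C : ℝ, 0 ≤ C ∧ ∀ x ∈ Icc x1 x2, ∀ y ∈ Icc x1 x2,
      |ld (v j) x - ld (v j) y| ≤ C * |x - y| := by
  induction j with
  | zero =>
    refine ⟨0, le_refl _, fun x _ y _ => ?_⟩
    rw [path_ld_zero hP, path_ld_zero hP, sub_self, abs_zero, zero_mul]
  | succ j ih =>
    obtain ⟨C, hC, h⟩ := ih (by omega)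
    obtain ⟨M, hM, hM'⟩ := path_lip_aux (hP.rg j (by omega)) h hC (hP.lt1.trans hP.lt2)
    have hs := hP.sm j (by omega)
    refine ⟨K * M + C, by positivity, fun x hx y hy => ?_⟩
    rw [hP.st j (by omega), chain_ld_mul hs.rg (hP.rg j (by omega)),
      chain_ld_mul hs.rg (hP.rg j (by omega))]
    have h1 := sm_lip hs (v j x) (v j y)
    have h2 := hM' x hx y hy
    have h3 := h x hx y hy
    have e : (ld (σ j) (v j x) + ld (v j) x) - (ld (σ j) (v j y) + ld (v j) y) =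
        (ld (σ j) (v j x) - ld (σ j) (v j y)) + (ld (v j) x - ld (v j) y) := by ring
    rw [e]
    refine (abs_add_le _ _).trans ?_
    have h4 : K * |v j x - v j y| ≤ K * (M * |x - y|) :=
      mul_le_mul_of_nonneg_left h2 (by linarith)
    nlinarith

/-- all times are good at small scales -/
theorem path_good_small (hK : 1 ≤ K) (hP : Path K N v σ a x1 p x2) {t0 : ℝ} (ht0 : 0 < t0)
    (h1 : 100000 * t0 ≤ p - x1) (h2 : 100000 * t0 ≤ x2 - p) :
    ∃ k : ℕ, ∀ j ≤ N, Gd (v j) x1 p x2 ((9 / 10) ^ k * t0) := by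
  have key : ∀ j ≤ N, ∃ k : ℕ, ∀ k' ≥ k, Gd (v j) x1 p x2 ((9 / 10) ^ k' * t0) := by
    intro j hj
    obtain ⟨C, hC, h⟩ := path_lip hK hP j hj
    have hR := hP.rg j hj
    have hD := hR.2 p
    have hr1 : 0 < v j x2 - v j p := sub_pos.2 ((v j).lt_iff_lt.2 hP.lt2)
    have hl1 : 0 < v j p - v j x1 := sub_pos.2 ((v j).lt_iff_lt.2 hP.lt1)
    have hlim : Tendsto (fun k : ℕ => (9 / 10 : ℝ) ^ k * t0) atTop (𝓝 0) := by
      have := (tendsto_pow_atTop_nhds_zero_of_lt_one (r := (9 / 10 : ℝ)) (by norm_num)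
        (by norm_num)).mul_const t0
      simpa using this
    have e1 : ∀ᶠ k : ℕ in atTop, (9 / 10 : ℝ) ^ k * t0 * (10000 * deriv (v j : ℝ → ℝ) p) <
        v j x2 - v j p := by
      have := hlim.mul_const (10000 * deriv (v j : ℝ → ℝ) p)
      rw [zero_mul] at this
      exact this.eventually (gt_mem_nhds hr1)
    have e2 : ∀ᶠ k : ℕ in atTop, (9 / 10 : ℝ) ^ k * t0 * (10000 * deriv (v j : ℝ → ℝ) p) <
        v j p - v j x1 := by
      have := hlim.mul_const (10000 * deriv (v j : ℝ → ℝ) p)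
      rw [zero_mul] at this
      exact this.eventually (gt_mem_nhds hl1)
    have e3 : ∀ᶠ k : ℕ in atTop, (9 / 10 : ℝ) ^ k * t0 * (500 * C) < 1 := by
      have := hlim.mul_const (500 * C)
      rw [zero_mul] at this
      exact this.eventually (gt_mem_nhds zero_lt_one)
    obtain ⟨k, hk⟩ := (e1.and (e2.and e3)).exists_forall_of_atTop
    refine ⟨k, fun k' hk' => ?_⟩
    obtain ⟨f1, f2, f3⟩ := hk k' hk'
    have ht : 0 < (9 / 10 : ℝ) ^ k' * t0 := by positivity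
    have ht' : (9 / 10 : ℝ) ^ k' * t0 ≤ t0 := by
      have : (9 / 10 : ℝ) ^ k' ≤ 1 := pow_le_one₀ (by norm_num) (by norm_num)
      nlinarith
    generalize (9 / 10 : ℝ) ^ k' * t0 = t at *
    refine ⟨by linarith, by linarith, fun x hx y hy => ?_⟩
    refine (h x ⟨by linarith [hx.1], by linarith [hx.2]⟩ y
      ⟨by linarith [hy.1], by linarith [hy.2]⟩).trans ?_
    have h3 : |x - y| / t ≤ 8 := by
      rw [div_le_iff₀ ht, abs_le]
      constructor <;> linarith [hx.1, hx.2, hy.1, hy.2]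
    have h4 := le_hr_8 (div_nonneg (abs_nonneg (x - y)) ht.le) h3
    have h5 : C * |x - y| = (t * C) * (|x - y| / t) := by
      field_simp
    rw [h5]
    have h6 := hr_nonneg (|x - y| / t)
    have h7 : 0 ≤ t * C := by positivity
    calc t * C * (|x - y| / t) ≤ t * C * (5 * hr (|x - y| / t)) :=
          mul_le_mul_of_nonneg_left h4 h7
      _ = (t * (500 * C)) * (hr (|x - y| / t) / 100) := by ring
      _ ≤ 1 * (hr (|x - y| / t) / 100) :=
          mul_le_mul_of_nonneg_right f3.le (by positivity)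
      _ = _ := one_mul _
  choose! k hk using key
  refine ⟨(Finset.range (N + 1)).sup k, fun j hj => hk j hj _ ?_⟩
  exact Finset.le_sup (f := k) (Finset.mem_range.2 (by omega))

/-- the energy theorem for the path -/
def PathEn (N : ℕ) (v : ℕ → ℝ ≃o ℝ) (a : ℕ → ℝ → ℝ) (x1 p x2 ε ζ : ℝ) : Prop :=
  ∀ (I : Finset ℕ) (T : ℕ → ℝ) (M : ℕ), (∀ i ∈ I, i < N) →
    Dat I (fun i => v i p) (fun i => v i p - v i x1) (fun i => v i x2 - v i p) T ε →
    ∃ m W : ℕ → ℕ → ℝ,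
      (∀ i ∈ I, ∀ l < M, Osc (a i) (v i p) (5 * ((9 / 10) ^ l * T i)) (m i l) (W i l)) ∧
      ∑ i ∈ I, ∑ l ∈ Finset.range M, 5 * ((9 / 10) ^ l * T i) *
        Er (a i) (v i p) (v i p - v i x1) (v i x2 - v i p) (5 * ((9 / 10) ^ l * T i))
          (m i l) (W i l) ^ 2 ≤ ζ

theorem path_swap {I : Finset ℕ} {k : ℕ} {τ n0 : ℕ → ℕ} {f : ℕ → ℕ → ℝ}
    (hf : ∀ i l, 0 ≤ f i l) (h1 : ∀ n < k, ∀ i < τ n, i ∈ I) (h2 : ∀ n < k, ∀ i < τ n, n0 i ≤ n) :
    ∑ n ∈ Finset.range k, ∑ i ∈ Finset.range (τ n), f i (n - n0 i) ≤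
      ∑ i ∈ I, ∑ l ∈ Finset.range k, f i l := by
  classical
  have e1 : ∀ n ∈ Finset.range k, ∑ i ∈ Finset.range (τ n), f i (n - n0 i) =
      ∑ i ∈ I, if i < τ n then f i (n - n0 i) else 0 := by
    intro n hn
    rw [← Finset.sum_filter]
    refine Finset.sum_congr ?_ fun _ _ => rfl
    ext i
    simp only [Finset.mem_range, Finset.mem_filter]
    exact ⟨fun h => ⟨h1 n (Finset.mem_range.1 hn) i h, h⟩, fun h => h.2⟩
  rw [Finset.sum_congr rfl e1, Finset.sum_comm]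
  refine Finset.sum_le_sum fun i _ => ?_
  rw [← Finset.sum_filter]
  have hinj : Set.InjOn (fun n => n - n0 i) ((Finset.range k).filter fun n => i < τ n) := by
    intro n hn n' hn' h
    simp only [Finset.coe_filter, Finset.mem_range, mem_setOf_eq] at hn hn'
    have g1 := h2 n hn.1 i hn.2
    have g2 := h2 n' hn'.1 i hn'.2
    simp only at h
    omega
  have e2 : ∑ n ∈ (Finset.range k).filter (fun n => i < τ n), f i (n - n0 i) =
      ∑ l ∈ ((Finset.range k).filter (fun n => i < τ n)).image (fun n => n - n0 i), f i l := by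
    rw [Finset.sum_image hinj]
  rw [e2]
  refine Finset.sum_le_sum_of_subset_of_nonneg ?_ fun l _ _ => hf i l
  intro l hl
  rw [Finset.mem_image] at hl
  obtain ⟨n, hn, rfl⟩ := hl
  rw [Finset.mem_filter, Finset.mem_range] at hn
  rw [Finset.mem_range]
  omega

theorem path_cs {s : Finset ℕ} {w e : ℕ → ℝ} (hw : ∀ i ∈ s, 0 ≤ w i) :
    (∑ i ∈ s, w i * e i) ^ 2 ≤ (∑ i ∈ s, w i) * ∑ i ∈ s, w i * e i ^ 2 := by
  have h := Finset.sum_mul_sq_le_sq_mul_sq s (fun i => √(w i)) (fun i => √(w i) * e i)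
  have e1 : ∑ i ∈ s, √(w i) * (√(w i) * e i) = ∑ i ∈ s, w i * e i :=
    Finset.sum_congr rfl fun i hi => by
      rw [← mul_assoc, Real.mul_self_sqrt (hw i hi)]
  have e2 : ∑ i ∈ s, √(w i) ^ 2 = ∑ i ∈ s, w i :=
    Finset.sum_congr rfl fun i hi => Real.sq_sqrt (hw i hi)
  have e3 : ∑ i ∈ s, (√(w i) * e i) ^ 2 = ∑ i ∈ s, w i * e i ^ 2 :=
    Finset.sum_congr rfl fun i hi => by rw [mul_pow, Real.sq_sqrt (hw i hi)]
  rwa [e1, e2, e3] at h

/-- the path theorem -/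
theorem path_core (hK : 1 ≤ K) (hP : Path K N v σ a x1 p x2) {Γ : Subgroup (ℝ ≃o ℝ)}
    (hΓ : ∀ i ≤ N, v i ∈ Γ) {t0 : ℝ} (ht0 : 0 < t0)
    (h1 : 100000 * t0 ≤ p - x1) (h2 : 100000 * t0 ≤ x2 - p) {ε ζ : ℝ}
    (hε : ∀ j < N, v j x2 - v j x1 ≤ ε) (hE : PathEn N v a x1 p x2 ε ζ) :
    ∃ k : ℕ, Gd (v N) x1 p x2 ((9 / 10) ^ k * t0) ∧
      volume (Ioo (p - t0) (p + t0) \ HH Γ p t0 ((9 / 10) ^ k * t0)) ≤
        ENNReal.ofReal (12 * t0 * ((100000 * K ^ 2) ^ 2 * ζ)) := by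
  classical
  have hex := path_good_small hK hP ht0 h1 h2
  obtain ⟨k, hk⟩ : ∃ k, k = Nat.find hex := ⟨_, rfl⟩
  have hkg : ∀ j ≤ N, Gd (v j) x1 p x2 ((9 / 10) ^ k * t0) := by
    rw [hk]
    exact Nat.find_spec hex
  have hkb : ∀ n < k, ∃ j, ¬Gd (v j) x1 p x2 ((9 / 10) ^ n * t0) := by
    intro n hn
    rw [hk] at hn
    have := Nat.find_min hex hn
    push Not at this
    obtain ⟨j, _, hj'⟩ := this
    exact ⟨j, hj'⟩
  have hkb' : ∀ n < k, ∃ j ≤ N, ¬Gd (v j) x1 p x2 ((9 / 10) ^ n * t0) := by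
    intro n hn
    rw [hk] at hn
    have := Nat.find_min hex hn
    push Not at this
    exact this
  -- the first bad time
  have hτex : ∃ τ : ℕ → ℕ, ∀ n < k, τ n ≤ N ∧ ¬Gd (v (τ n)) x1 p x2 ((9 / 10) ^ n * t0) ∧
      ∀ i < τ n, Gd (v i) x1 p x2 ((9 / 10) ^ n * t0) := by
    refine ⟨fun n => if h : n < k then Nat.find (hkb n h) else 0, fun n hn => ?_⟩
    simp only [dif_pos hn]
    refine ⟨?_, Nat.find_spec (hkb n hn), fun i hi => ?_⟩
    · obtain ⟨j, hj, hj'⟩ := hkb' n hn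
      exact (Nat.find_min' (hkb n hn) hj').trans hj
    · have := Nat.find_min (hkb n hn) hi
      exact not_not.1 this
  obtain ⟨τ, hτ⟩ := hτex
  have htn : ∀ n : ℕ, 0 < (9 / 10 : ℝ) ^ n * t0 := fun n => by positivity
  have htn' : ∀ n : ℕ, (9 / 10 : ℝ) ^ n * t0 ≤ t0 := fun n => by
    have : (9 / 10 : ℝ) ^ n ≤ 1 := pow_le_one₀ (by norm_num) (by norm_num)
    nlinarith
  have hτ0 : ∀ n < k, 0 < τ n := by
    intro n hn
    rw [Nat.pos_iff_ne_zero]
    intro h0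
    have h3 := (hτ n hn).2.1
    rw [h0] at h3
    exact h3 (path_good_zero hP (htn n) (by linarith [htn' n]) (by linarith [htn' n]))
  -- the index set and the first scale
  set I : Finset ℕ := (Finset.range N).filter fun i => ∃ n, n < k ∧ i < τ n with hI
  have hIex : ∀ i ∈ I, ∃ n, n < k ∧ i < τ n := fun i hi => (Finset.mem_filter.1 hi).2
  have hn0ex : ∃ n0 : ℕ → ℕ, ∀ i ∈ I, (n0 i < k ∧ i < τ (n0 i)) ∧
      ∀ n, n < k → i < τ n → n0 i ≤ n := by
    refine ⟨fun i => if h : ∃ n, n < k ∧ i < τ n then Nat.find h else 0, fun i hi => ?_⟩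
    have h := hIex i hi
    simp only [dif_pos h]
    exact ⟨Nat.find_spec h, fun n hn hn' => Nat.find_min' h ⟨hn, hn'⟩⟩
  obtain ⟨n0, hn0⟩ := hn0ex
  have hmemI : ∀ n < k, ∀ i < τ n, i ∈ I := by
    intro n hn i hi
    rw [hI, Finset.mem_filter, Finset.mem_range]
    exact ⟨lt_of_lt_of_le hi (hτ n hn).1, n, hn, hi⟩
  obtain ⟨T, hT⟩ : ∃ T : ℕ → ℝ, ∀ i, T i = (9 / 10) ^ (n0 i) * t0 * deriv (v i : ℝ → ℝ) p :=
    ⟨_, fun _ => rfl⟩
  have hIN : ∀ i ∈ I, i < N := fun i hi => Finset.mem_range.1 (Finset.mem_filter.1 hi).1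
  have hD : ∀ i ≤ N, 0 < deriv (v i : ℝ → ℝ) p := fun i hi => (hP.rg i hi).2 p
  have hgI : ∀ i ∈ I, Gd (v i) x1 p x2 ((9 / 10) ^ (n0 i) * t0) := fun i hi =>
    (hτ _ (hn0 i hi).1.1).2.2 i (hn0 i hi).1.2
  have hdat : Dat I (fun i => v i p) (fun i => v i p - v i x1) (fun i => v i x2 - v i p) T ε := by
    refine ⟨fun i hi => ?_, fun i hi => ?_, fun i hi => ?_, fun i hi => ?_, fun i hi => ?_,
      fun i hi j hj hij => ?_⟩
    · have := hP.win i (hIN i hi)
      rw [abs_le]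
      constructor <;> linarith [this.1, this.2]
    · rw [hT]
      have := hD i (hIN i hi).le
      have := htn (n0 i)
      positivity
    · rw [hT]
      exact (hgI i hi).l
    · rw [hT]
      exact (hgI i hi).r
    · have := hε i (hIN i hi)
      linarith
    · have := hP.sep i j hij (hIN j hj)
      intro h
      exact this ⟨by linarith [h.1], by linarith [h.2]⟩
  obtain ⟨m, W, hosc, hen⟩ := hE I T k hIN hdat
  -- the weights
  have hTn : ∀ n < k, ∀ i < τ n, (9 / 10 : ℝ) ^ (n - n0 i) * T i =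
      (9 / 10) ^ n * t0 * deriv (v i : ℝ → ℝ) p := by
    intro n hn i hi
    have h3 := (hn0 i (hmemI n hn i hi)).2 n hn hi
    rw [hT]
    have h4 : (9 / 10 : ℝ) ^ n = (9 / 10) ^ (n - n0 i) * (9 / 10) ^ (n0 i) := by
      rw [← pow_add]
      congr 1
      omega
    rw [h4]
    ring
  set f : ℕ → ℕ → ℝ := fun i l => 5 * ((9 / 10) ^ l * T i) *
        Er (a i) (v i p) (v i p - v i x1) (v i x2 - v i p) (5 * ((9 / 10) ^ l * T i))
          (m i l) (W i l) ^ 2 with hf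
  have hT0 : ∀ i ∈ I, 0 < T i := fun i hi => hdat.T0 i hi
  have hbound : ∀ n < k, 1 / (100000 * K ^ 2) <
      ∑ i ∈ Finset.range (τ n), (9 / 10) ^ n * t0 * deriv (v i : ℝ → ℝ) p *
      Er (a i) (v i p) (v i p - v i x1) (v i x2 - v i p)
        (5 * ((9 / 10) ^ n * t0 * deriv (v i : ℝ → ℝ) p)) (m i (n - n0 i)) (W i (n - n0 i)) := by
    intro n hn
    by_contra hc
    refine (hτ n hn).2.1 (main_lemma hK hP (htn n) (by linarith [htn' n]) (by linarith [htn' n])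
      (hτ n hn).1 (hτ n hn).2.2 (fun i => m i (n - n0 i)) (fun i => W i (n - n0 i)) ?_
      (not_lt.1 hc))
    intro i hi
    have hi' := hmemI n hn i hi
    have h3 := (hn0 i hi').2 n hn hi
    have h4 := hosc i hi' (n - n0 i) (by omega)
    rwa [hTn n hn i hi] at h4
  have hG : ∀ n < k, 60 * t0 / ∑ i ∈ Finset.range (τ n), (9 / 10) ^ n * t0 *
      deriv (v i : ℝ → ℝ) p ≤ 12 * t0 * (100000 * K ^ 2) ^ 2 *
        ∑ i ∈ Finset.range (τ n), f i (n - n0 i) := by
    intro n hn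
    have hw : ∀ i ∈ Finset.range (τ n), 0 ≤ (9 / 10) ^ n * t0 * deriv (v i : ℝ → ℝ) p := by
      intro i hi
      have := hD i ((Finset.mem_range.1 hi).le.trans (hτ n hn).1)
      have := htn n
      positivity
    have hcs := path_cs (s := Finset.range (τ n)) (e := fun i =>
      Er (a i) (v i p) (v i p - v i x1) (v i x2 - v i p)
        (5 * ((9 / 10) ^ n * t0 * deriv (v i : ℝ → ℝ) p)) (m i (n - n0 i)) (W i (n - n0 i))) hw
    have hb := hbound n hn
    have hsum : ∑ i ∈ Finset.range (τ n), (9 / 10) ^ n * t0 * deriv (v i : ℝ → ℝ) p *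
        Er (a i) (v i p) (v i p - v i x1) (v i x2 - v i p)
        (5 * ((9 / 10) ^ n * t0 * deriv (v i : ℝ → ℝ) p)) (m i (n - n0 i)) (W i (n - n0 i)) ^ 2 =
        (∑ i ∈ Finset.range (τ n), f i (n - n0 i)) / 5 := by
      rw [eq_div_iff (by norm_num), Finset.sum_mul]
      refine Finset.sum_congr rfl fun i hi => ?_
      simp only [hf]
      rw [hTn n hn i (Finset.mem_range.1 hi)]
      ring
    rw [hsum] at hcs
    have hGpos : 0 < ∑ i ∈ Finset.range (τ n), (9 / 10) ^ n * t0 * deriv (v i : ℝ → ℝ) p := by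
      refine Finset.sum_pos (fun i hi => ?_) ⟨0, Finset.mem_range.2 (hτ0 n hn)⟩
      have := hD i ((Finset.mem_range.1 hi).le.trans (hτ n hn).1)
      have := htn n
      positivity
    have hc0 : (0 : ℝ) < 1 / (100000 * K ^ 2) := by positivity
    have hsq : (1 / (100000 * K ^ 2)) ^ 2 ≤
        (∑ i ∈ Finset.range (τ n), (9 / 10) ^ n * t0 * deriv (v i : ℝ → ℝ) p) *
        ((∑ i ∈ Finset.range (τ n), f i (n - n0 i)) / 5) :=
      (pow_le_pow_left₀ hc0.le hb.le 2).trans hcs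
    rw [div_le_iff₀ hGpos]
    generalize (∑ i ∈ Finset.range (τ n), (9 / 10) ^ n * t0 * deriv (v i : ℝ → ℝ) p) = G at *
    generalize (∑ i ∈ Finset.range (τ n), f i (n - n0 i)) = F at *
    have hK2 : 0 < (100000 * K ^ 2) ^ 2 := by positivity
    have h5 : 1 ≤ (100000 * K ^ 2) ^ 2 * (G * (F / 5)) := by
      calc (1 : ℝ) = (100000 * K ^ 2) ^ 2 * (1 / (100000 * K ^ 2)) ^ 2 := by
            field_simp
        _ ≤ _ := mul_le_mul_of_nonneg_left hsq hK2.le
    nlinarith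
  refine ⟨k, hkg N le_rfl, ?_⟩
  refine (ret_chain hK hP hΓ ht0 (by linarith) (by linarith) (fun n hn => (hτ n hn).1) hτ0
    (fun n hn => (hτ n hn).2.2)).trans (ENNReal.ofReal_le_ofReal ?_)
  refine (Finset.sum_le_sum fun n hn => hG n (Finset.mem_range.1 hn)).trans ?_
  rw [← Finset.mul_sum]
  have hf0 : ∀ i l, i ∈ I → 0 ≤ f i l := by
    intro i l hi
    have := hT0 i hi
    simp only [hf]
    positivity
  have hswap : ∑ n ∈ Finset.range k, ∑ i ∈ Finset.range (τ n), f i (n - n0 i) ≤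
      ∑ i ∈ I, ∑ l ∈ Finset.range k, f i l := by
    have h3 := path_swap (I := I) (k := k) (τ := τ) (n0 := n0)
      (f := fun i l => if i ∈ I then f i l else 0)
      (fun i l => by
        split_ifs with h
        · exact hf0 i l h
        · exact le_refl _) hmemI
      (fun n hn i hi => (hn0 i (hmemI n hn i hi)).2 n hn hi)
    refine le_trans (le_of_eq ?_) (h3.trans (le_of_eq ?_))
    · refine Finset.sum_congr rfl fun n hn => Finset.sum_congr rfl fun i hi => ?_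
      rw [if_pos (hmemI n (Finset.mem_range.1 hn) i (Finset.mem_range.1 hi))]
    · refine Finset.sum_congr rfl fun i hi => Finset.sum_congr rfl fun l _ => ?_
      rw [if_pos hi]
  have h6 : ∑ n ∈ Finset.range k, ∑ i ∈ Finset.range (τ n), f i (n - n0 i) ≤ ζ :=
    hswap.trans hen
  have h7 : 0 ≤ 12 * t0 * (100000 * K ^ 2) ^ 2 := by positivity
  calc 12 * t0 * (100000 * K ^ 2) ^ 2 *
        ∑ n ∈ Finset.range k, ∑ i ∈ Finset.range (τ n), f i (n - n0 i)
      ≤ 12 * t0 * (100000 * K ^ 2) ^ 2 * ζ := mul_le_mul_of_nonneg_left h6 h7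
    _ = _ := by ring

end Pool.Agent.H66.GSC
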