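import Mathlib
import Pool.Agent.H51.GSC.PathCore

/-!
# Project GSC (helper51), MP_20ddb5_an: section 6 of note 1871 without the markers
-/

set_option autoImplicit false
open Set Filter Topology MeasureTheory

namespace Pool.Agent.H66.GSC

open Pool.Agent.H24.GN (ld Rg DB)

variable {K : ℝ} {N : ℕ} {v σ : ℕ → ℝ ≃o ℝ} {a : ℕ → ℝ → ℝ} {x1 p x2 : ℝ}

/-- the derivative of the inverse -/
theorem end_ld_inv {g : ℝ ≃o ℝ} (hg : Rg g) (y : ℝ) :
    HasDerivAt (g⁻¹ : ℝ ≃o ℝ) (deriv (g : ℝ → ℝ) y)⁻¹ (g y) := by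
  have h := (g.toHomeomorph.toOpenPartialHomeomorph).hasDerivAt_symm (a := g y)
    (f' := deriv (g : ℝ → ℝ) y) (mem_univ _) (hg.2 y).ne'
  have e : (g.toHomeomorph.toOpenPartialHomeomorph).symm (g y) = y := g.symm_apply_apply y
  rw [e] at h
  exact h (hg.1 y).hasDerivAt

theorem end_rg_inv {g : ℝ ≃o ℝ} (hg : Rg g) : Rg g⁻¹ := by
  refine ⟨fun z => ?_, fun z => ?_⟩
  · have h := end_ld_inv hg (g⁻¹ z)
    have e : g (g⁻¹ z) = z := g.apply_symm_apply z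
    rw [e] at h
    exact h.differentiableAt
  · have h := end_ld_inv hg (g⁻¹ z)
    have e : g (g⁻¹ z) = z := g.apply_symm_apply z
    rw [e] at h
    rw [h.deriv]
    exact inv_pos.2 (hg.2 _)

theorem end_ld {w g : ℝ ≃o ℝ} (hw : Rg w) (hg : Rg g) (y : ℝ) :
    ld (w * g⁻¹) (g y) = ld w y - ld g y := by
  have e : g⁻¹ (g y) = y := g.symm_apply_apply y
  rw [chain_ld_mul hw (end_rg_inv hg), e]
  have h := (end_ld_inv hg y).deriv
  have h2 : ld g⁻¹ (g y) = -ld g y := by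
    unfold ld
    rw [h, Real.log_inv]
  rw [h2]
  ring

/-- the end of the proof, without the markers -/
theorem end_core (hK : 1 ≤ K) (hP : Path K N v σ a x1 p x2) {Γ : Subgroup (ℝ ≃o ℝ)}
    (hΓ : ∀ i ≤ N, v i ∈ Γ) {t0 : ℝ} (ht0 : 0 < t0)
    (h1 : 100000 * t0 ≤ p - x1) (h2 : 100000 * t0 ≤ x2 - p) {ε ζ : ℝ}
    (hε : ∀ j < N, v j x2 - v j x1 ≤ ε) (hE : PathEn N v a x1 p x2 ε ζ)
    (hζ : 12 * ((100000 * K ^ 2) ^ 2 * ζ) ≤ 1) {X : Set ℝ}
    (hX : volume (Ioo (p - t0) (p + t0) \ X) ≤ ENNReal.ofReal (t0 / 4)) :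
    ∃ w ∈ Γ, Rg w ∧ ∃ α β x : ℝ, x ∈ X ∧ α < x ∧ x < β ∧ β - α ≤ 4 * t0 ∧
      DB w α β (1 / 20) ∧ w α < v N p ∧ v N p < w β := by
  obtain ⟨k, hg, hvol⟩ := path_core hK hP hΓ ht0 h1 h2 hε hE
  have ht : 0 < (9 / 10 : ℝ) ^ k * t0 := by positivity
  generalize (9 / 10 : ℝ) ^ k * t0 = t at *
  have hex : ∃ x ∈ Ioo (p - t0) (p + t0), x ∈ X ∧ x ∈ HH Γ p t0 t := by
    by_contra hc
    push Not at hc
    have hsub : Ioo (p - t0) (p + t0) ⊆ (Ioo (p - t0) (p + t0) \ HH Γ p t0 t) ∪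
        (Ioo (p - t0) (p + t0) \ X) := by
      intro x hx
      by_cases h : x ∈ X
      · exact Or.inl ⟨hx, hc x hx h⟩
      · exact Or.inr ⟨hx, h⟩
    have h3 := (measure_mono hsub).trans ((measure_union_le _ _).trans (add_le_add hvol hX))
    have h4 : 12 * t0 * ((100000 * K ^ 2) ^ 2 * ζ) ≤ t0 := by nlinarith
    have h5 := h3.trans (add_le_add (ENNReal.ofReal_le_ofReal h4) le_rfl)
    rw [Real.volume_Ioo, ← ENNReal.ofReal_add ht0.le (by linarith),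
      ENNReal.ofReal_le_ofReal_iff (by linarith)] at h5
    linarith
  obtain ⟨x, hx, hxX, hxH⟩ := hex
  simp only [HH, mem_iUnion] at hxH
  obtain ⟨g, hgC, y, hy, rfl⟩ := hxH
  obtain ⟨hgΓ, hgR, hgm, hgh⟩ := hgC
  have hvR := hP.rg N le_rfl
  have hm1 := hgm (p - t) (by rw [abs_le]; constructor <;> linarith)
  have hm2 := hgm (p + t) (by rw [abs_le]; constructor <;> linarith)
  rw [abs_le] at hm1 hm2
  have hwv : ∀ z, (v N * g⁻¹ : ℝ ≃o ℝ) (g z) = v N z := fun z => by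
    change v N (g⁻¹ (g z)) = v N z
    congr 1
    exact g.symm_apply_apply z
  refine ⟨v N * g⁻¹, Γ.mul_mem (hΓ N le_rfl) (Γ.inv_mem hgΓ),
    chain_rg_mul hvR (end_rg_inv hgR), g (p - t), g (p + t), g y, hxX,
    g.lt_iff_lt.2 hy.1, g.lt_iff_lt.2 hy.2, by linarith [hm1.1, hm2.2], ?_, ?_, ?_⟩
  · rintro z hz z' hz'
    obtain ⟨s, rfl⟩ := g.surjective z
    obtain ⟨s', rfl⟩ := g.surjective z'
    have hs1 : p - t ≤ s := g.le_iff_le.1 hz.1
    have hs2 : s ≤ p + t := g.le_iff_le.1 hz.2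
    have hs1' : p - t ≤ s' := g.le_iff_le.1 hz'.1
    have hs2' : s' ≤ p + t := g.le_iff_le.1 hz'.2
    rw [end_ld hvR hgR, end_ld hvR hgR]
    have h3 := hg.h s ⟨by linarith, by linarith⟩ s' ⟨by linarith, by linarith⟩
    have h4 := hgh s s' (by rw [abs_le]; constructor <;> linarith)
      (by rw [abs_le]; constructor <;> linarith)
    have h5 : |s - s'| / t ≤ 2 := by
      rw [div_le_iff₀ ht, abs_le]
      constructor <;> linarith
    have h6 : hr (|s - s'| / t) ≤ 5 / 4 := hr_le (by norm_num) (h5.trans (by norm_num))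
    have e : (ld (v N) s - ld g s) - (ld (v N) s' - ld g s') =
        (ld (v N) s - ld (v N) s') - (ld g s - ld g s') := by ring
    rw [e]
    refine (abs_sub _ _).trans ?_
    linarith
  · rw [hwv]
    exact (v N).lt_iff_lt.2 (by linarith)
  · rw [hwv]
    exact (v N).lt_iff_lt.2 (by linarith)

end Pool.Agent.H66.GSC
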