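import Mathlib
import Pool.Agent.H66.GSC.En
import Pool.Agent.H51.GSC.PathCore

/-!
# Project GSC (helper51), MP_20ddb5_an: the energy theorem in the form of the path theorem
-/

set_option autoImplicit false
open Set Filter Topology MeasureTheory

namespace Pool.Agent.H66.GSC

open Pool.Agent.H24.GN (ld Rg DB)

theorem Dat_mono {I : Finset ℕ} {P L R T : ℕ → ℝ} {ε ε' : ℝ} (h : Dat I P L R T ε)
    (hε : ε ≤ ε') : Dat I P L R T ε' :=
  ⟨h.win, h.T0, h.TL, h.TR, fun i hi => (h.sm i hi).trans hε, h.sep⟩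

/-- the energy theorem for words in a finite set of generators -/
theorem pathEn_exists {S : Set (ℝ ≃o ℝ)} (hS : S.Finite) {as : (ℝ ≃o ℝ) → ℝ → ℝ}
    (hc : ∀ s ∈ S, Continuous (as s)) {ζ : ℝ} (hζ : 0 < ζ) :
    ∃ ε0 : ℝ, 0 < ε0 ∧ ∀ (ε : ℝ) (N : ℕ) (v s : ℕ → ℝ ≃o ℝ) (x1 p x2 : ℝ), ε ≤ ε0 →
      (∀ j < N, s j ∈ S) → PathEn N v (fun j => as (s j)) x1 p x2 ε ζ := by
  classical
  have hfin : Finite S := hS
  obtain ⟨ε0, hε0, h⟩ := energy (ι := Option S)
    (fun o => match o with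
      | none => fun _ => 0
      | some s => as s.1)
    (fun o => match o with
      | none => continuous_const
      | some s => hc s.1 s.2) (ζ := ζ / 5) (by linarith)
  refine ⟨ε0, hε0, fun ε N v s x1 p x2 hε hs I T M hI hdat => ?_⟩
  obtain ⟨m, W, h1, h2⟩ := h I (fun i => if hi : s i ∈ S then some ⟨s i, hi⟩ else none)
    (fun i => v i p) (fun i => v i p - v i x1) (fun i => v i x2 - v i p) T
    (Dat_mono hdat hε) M
  refine ⟨m, W, fun i hi l hl => ?_, ?_⟩
  · have h3 := h1 i hi l hl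
    simp only [dif_pos (hs i (hI i hi))] at h3
    exact h3
  · have h4 : ∑ i ∈ I, ∑ l ∈ Finset.range M, 5 * ((9 / 10) ^ l * T i) *
        Er (as (s i)) (v i p) (v i p - v i x1) (v i x2 - v i p) (5 * ((9 / 10) ^ l * T i))
          (m i l) (W i l) ^ 2 = 5 * ∑ i ∈ I, ∑ l ∈ Finset.range M, (9 / 10 : ℝ) ^ l * T i *
        Er (as (s i)) (v i p) (v i p - v i x1) (v i x2 - v i p) (5 * ((9 / 10) ^ l * T i))
          (m i l) (W i l) ^ 2 := by
      rw [Finset.mul_sum]
      refine Finset.sum_congr rfl fun i _ => ?_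
      rw [Finset.mul_sum]
      refine Finset.sum_congr rfl fun l _ => ?_
      ring
    rw [h4]
    have h5 : ∑ i ∈ I, ∑ l ∈ Finset.range M, (9 / 10 : ℝ) ^ l * T i *
        Er (as (s i)) (v i p) (v i p - v i x1) (v i x2 - v i p) (5 * ((9 / 10) ^ l * T i))
          (m i l) (W i l) ^ 2 ≤ ζ / 5 := by
      refine le_trans (le_of_eq ?_) h2
      refine Finset.sum_congr rfl fun i hi => Finset.sum_congr rfl fun l _ => ?_
      simp only [dif_pos (hs i (hI i hi))]
    linarith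

end Pool.Agent.H66.GSC
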